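import Mathlib

set_option autoImplicit false

namespace Pool.Agent.Results.MP_bcfe2b_lc.Q1

open Cardinal Filter Topology Set

/-- the space of nonprincipal ultrafilters on `ℕ`, a subspace of the Stone space -/
abbrev NStar : Type := {p : Ultrafilter ℕ // ∀ n, p ≠ pure n}

/-- almost disjoint families of regular open sets -/
def AlmostDisjoint {X : Type} [TopologicalSpace X] (𝒜 : Set (Set X)) : Prop :=
  (∀ U ∈ 𝒜, U = interior (closure U) ∧ ¬ IsCompact U) ∧
    ∀ U ∈ 𝒜, ∀ V ∈ 𝒜, U ≠ V → IsCompact (U ∩ V)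

/-! ### combinatorics modulo finite sets -/

def AL (a b : Set ℕ) : Prop := (a \ b).Finite

lemma AL.of_subset {a b : Set ℕ} (h : a ⊆ b) : AL a b := by
  unfold AL; rw [diff_eq_empty.2 h]; exact finite_empty

lemma AL.trans {a b c : Set ℕ} (h : AL a b) (h' : AL b c) : AL a c :=
  (h.union h').subset fun x hx => by
    by_cases hb : x ∈ b
    · exact Or.inr ⟨hb, hx.2⟩
    · exact Or.inl ⟨hx.1, hb⟩

lemma AL.union {a b c : Set ℕ} (h : AL a c) (h' : AL b c) : AL (a ∪ b) c := by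
  unfold AL at *; rw [union_diff_distrib]; exact h.union h'

lemma interp {ι : Type} [Countable ι] (a b : ι → Set ℕ) (h : ∀ i j, AL (a i) (b j)) :
    ∃ y, (∀ i, AL (a i) y) ∧ ∀ j, AL y (b j) := by
  obtain ⟨c, hc⟩ := exists_injective_nat ι
  have hf : ∀ n, {j | c j ≤ n}.Finite := fun n => (finite_Iic n).preimage hc.injOn
  refine ⟨⋃ i, a i ∩ ⋂ j ∈ {j | c j ≤ c i}, b j, fun i => ?_, fun j => ?_⟩
  · refine ((hf (c i)).biUnion fun j _ => h i j).subset fun x hx => ?_
    by_contra hcon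
    simp only [mem_iUnion, not_exists] at hcon
    apply hx.2
    refine mem_iUnion.2 ⟨i, hx.1, mem_iInter₂.2 fun j hj => ?_⟩
    by_contra hb
    exact hcon j hj ⟨hx.1, hb⟩
  · refine ((hf (c j)).biUnion fun i _ => h i j).subset fun x hx => ?_
    obtain ⟨i, h1, h2⟩ := mem_iUnion.1 hx.1
    refine mem_iUnion₂.2 ⟨i, ?_, h1, hx.2⟩
    by_contra hcon
    have h3 : c j ≤ c i := (not_le.1 hcon).le
    exact hx.2 (mem_iInter₂.1 h2 j h3)

lemma pseudo {ι : Type} [Countable ι] [LinearOrder ι] (w : ι → Set ℕ) (h1 : ∀ i, (w i).Infinite)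
    (h2 : ∀ i j, i < j → AL (w j) (w i)) : ∃ W : Set ℕ, W.Infinite ∧ ∀ i, AL W (w i) := by
  obtain ⟨c, hc⟩ := exists_injective_nat ι
  have hf : ∀ n, {j | c j ≤ n}.Finite := fun n => (finite_Iic n).preimage hc.injOn
  have : ∀ n, ∃ x, n < x ∧ ∀ j, c j ≤ n → x ∈ w j := by
    intro n
    rcases {j | c j ≤ n}.eq_empty_or_nonempty with he | hne
    · exact ⟨n + 1, Nat.lt_succ_self n, fun j hj => absurd (he ▸ hj : j ∈ (∅ : Set ι)) (by simp)⟩
    · obtain ⟨m, hm, hmax⟩ := exists_max_image _ id (hf n) hne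
      have hfin : (⋃ j ∈ {j | c j ≤ n}, w m \ w j).Finite := (hf n).biUnion fun j hj => by
        rcases (show j ≤ m from hmax j hj).lt_or_eq with h | h
        · exact h2 j m h
        · rw [h]; simp
      obtain ⟨x, ⟨hx1, hx2⟩, hx3⟩ := ((h1 m).diff hfin).exists_gt n
      refine ⟨x, hx3, fun j hj => ?_⟩
      by_contra hcon
      exact hx2 (mem_iUnion₂.2 ⟨j, hj, hx1, hcon⟩)
  choose x hx1 hx2 using this
  refine ⟨range x, ?_, fun i => ?_⟩
  · apply infinite_of_forall_exists_gt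
    intro n
    exact ⟨x n, ⟨n, rfl⟩, hx1 n⟩
  · refine ((finite_Iio (c i)).image x).subset ?_
    rintro _ ⟨⟨n, rfl⟩, hn⟩
    refine ⟨n, ?_, rfl⟩
    by_contra hcon
    exact hn (hx2 n i (not_lt.1 hcon))

/-- the data chosen at one stage -/
structure Base where
  Y : Set ℕ
  z : Bool → Set ℕ
  w : Bool → Set ℕ

def Good {ι : Type} [LT ι] (d : ι → Set ℕ × Set ℕ) : Prop :=
  (∀ i, (d i).2.Infinite ∧ Disjoint (d i).1 (d i).2) ∧
    ∀ i j, i < j → AL (d i).1 (d j).1 ∧ AL (d j).1 ((d i).1 ∪ (d i).2) ∧ AL (d j).2 (d i).2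

def Base.Ok {ι : Type} (B : Base) (d : ι → Set ℕ × Set ℕ) : Prop :=
  (∀ b, (B.z b).Infinite ∧ (B.w b).Infinite ∧ Disjoint B.Y (B.z b ∪ B.w b) ∧
    Disjoint (B.z b) (B.w b)) ∧
  (∀ b b', b ≠ b' → Disjoint (B.z b ∪ B.w b) (B.z b' ∪ B.w b')) ∧
  ∀ i, AL (d i).1 B.Y ∧ AL B.Y ((d i).1 ∪ (d i).2) ∧ ∀ b, AL (B.z b ∪ B.w b) (d i).2

lemma exists_base {ι : Type} [Countable ι] [LinearOrder ι] (d : ι → Set ℕ × Set ℕ) :
    ∃ B : Base, Good d → B.Ok d := by
  by_cases h : Good d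
  swap
  · exact ⟨⟨∅, fun _ => ∅, fun _ => ∅⟩, fun h' => absurd h' h⟩
  obtain ⟨W, hW, hW'⟩ := pseudo (fun i => (d i).2) (fun i => (h.1 i).1)
    (fun i j hij => (h.2 i j hij).2.2)
  obtain ⟨Y, hY, hY'⟩ := interp (fun i => (d i).1) (fun i => (d i).1 ∪ (d i).2) (by
    intro i j
    rcases lt_trichotomy i j with hij | hij | hij
    · exact (h.2 i j hij).1.trans (AL.of_subset subset_union_left)
    · rw [hij]; exact AL.of_subset subset_union_left
    · exact (h.2 j i hij).2.1)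
  let g : ℕ → ℕ := fun n => (hW.natEmbedding W n : ℕ)
  have g1 : Function.Injective g := Subtype.val_injective.comp (hW.natEmbedding W).injective
  have g2 : ∀ n, g n ∈ W := fun n => (hW.natEmbedding W n).2
  let P : ℕ → Set ℕ := fun i => range fun n => g (4 * n + i)
  have P1 : ∀ i, (P i).Infinite := fun i =>
    infinite_range_of_injective fun a b hab => by have := g1 hab; omega
  have P2 : ∀ i, P i ⊆ W := by rintro i _ ⟨n, rfl⟩; exact g2 _
  have P3 : ∀ i j, i < 4 → j < 4 → i ≠ j → Disjoint (P i) (P j) := by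
    intro i j hi hj hij
    rw [disjoint_left]
    rintro _ ⟨n, rfl⟩ ⟨m, hm⟩
    have := g1 hm
    omega
  refine ⟨⟨Y \ W, fun b => P (cond b 0 1), fun b => P (cond b 2 3)⟩, fun _ => ⟨?_, ?_, ?_⟩⟩
  · intro b
    refine ⟨P1 _, P1 _, disjoint_sdiff_left.mono_right (union_subset (P2 _) (P2 _)), ?_⟩
    cases b <;> apply P3 <;> simp
  · intro b b' hb
    simp only [disjoint_union_left, disjoint_union_right]
    cases b <;> cases b' <;> simp at hb <;> refine ⟨⟨?_, ?_⟩, ?_, ?_⟩ <;> apply P3 <;> simp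
  · intro i
    refine ⟨?_, (AL.of_subset diff_subset).trans (hY' i),
      fun b => (AL.of_subset (union_subset (P2 _) (P2 _))).trans (hW' i)⟩
    refine (Set.Finite.union (hY i) (hW' i)).subset fun x hx => ?_
    by_cases hxW : x ∈ W
    · exact Or.inr ⟨hxW, fun h2 => disjoint_left.1 (h.1 i).2 hx.1 h2⟩
    · exact Or.inl ⟨hx.1, fun h2 => hx.2 ⟨h2, hxW⟩⟩

lemma tree (Ω : Type) [LinearOrder Ω] [WellFoundedLT Ω] (hc : ∀ α : Ω, (Iio α).Countable) :
    ∃ y : (Ω → Bool) → Ω → Set ℕ,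
      (∀ b β γ, β < γ → AL (y b β) (y b γ) ∧ (y b γ \ y b β).Infinite) ∧
      ∀ b b', b ≠ b' → ∃ α A A', (∀ γ, AL (y b γ) A) ∧ (∀ γ, AL (y b' γ) A') ∧
        A ∩ A' ⊆ y b α ∧ A ∩ A' ⊆ y b' α ∧ (y b α \ A').Infinite := by
  have : ∀ (α : Ω) (d : Iio α → Set ℕ × Set ℕ), ∃ B : Base, Good d → B.Ok d := fun α d =>
    haveI := (hc α).to_subtype
    exists_base d
  choose B hB using this
  let D : (Ω → Bool) → Ω → Set ℕ × Set ℕ := fun b => (wellFounded_lt (α := Ω)).fix
    fun α prev => ((B α fun i => prev i.1 i.2).Y ∪ (B α fun i => prev i.1 i.2).z (b α),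
      (B α fun i => prev i.1 i.2).w (b α))
  have hD : ∀ b α, D b α = ((B α fun i => D b i.1).Y ∪ (B α fun i => D b i.1).z (b α),
      (B α fun i => D b i.1).w (b α)) := fun b α => WellFounded.fix_eq _ _ _
  have hok : ∀ b α, (B α fun i => D b i.1).Ok (fun i : Iio α => D b i.1) := by
    intro b α
    induction α using WellFoundedLT.induction with
    | _ α ih =>
      apply hB
      constructor
      · intro i
        obtain ⟨h1, -, -⟩ := ih i.1 i.2
        simp only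
        rw [hD b i.1]
        exact ⟨(h1 _).2.1, disjoint_union_left.2
          ⟨(h1 _).2.2.1.mono_right subset_union_right, (h1 _).2.2.2⟩⟩
      · intro i j hij
        obtain ⟨-, -, h3⟩ := ih j.1 j.2
        obtain ⟨a1, a2, a3⟩ := h3 ⟨i.1, hij⟩
        simp only
        rw [hD b j.1]
        exact ⟨a1.trans (AL.of_subset subset_union_left), a2.union
          (((AL.of_subset subset_union_left).trans (a3 _)).trans (AL.of_subset subset_union_right)),
          (AL.of_subset subset_union_right).trans (a3 _)⟩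
  have hdis : ∀ b α, Disjoint (D b α).1 (D b α).2 := by
    intro b α
    obtain ⟨h1, -, -⟩ := hok b α
    rw [hD b α]
    exact disjoint_union_left.2 ⟨(h1 _).2.2.1.mono_right subset_union_right, (h1 _).2.2.2⟩
  have hmono : ∀ b β γ, β < γ → AL (D b β).1 (D b γ).1 ∧ ((D b γ).1 \ (D b β).1).Infinite ∧
      AL (D b γ).1 ((D b β).1 ∪ (D b β).2) := by
    intro b β γ h
    obtain ⟨h1, -, h3⟩ := hok b γ
    obtain ⟨a1, a2, a3⟩ := h3 ⟨β, h⟩
    have a4 := (AL.of_subset subset_union_left).trans (a3 (b γ))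
    rw [hD b γ]
    refine ⟨a1.trans (AL.of_subset subset_union_left), ((h1 (b γ)).1.diff a4).mono ?_,
      a2.union (a4.trans (AL.of_subset subset_union_right))⟩
    intro x hx
    refine ⟨Or.inr hx.1, fun h2 => hx.2 ⟨hx.1, disjoint_left.1 (hdis b β) h2⟩⟩
  have hagree : ∀ b b' α, (∀ γ, γ ≤ α → b γ = b' γ) → D b α = D b' α := by
    intro b b' α
    induction α using WellFoundedLT.induction with
    | _ α ih =>
      intro h
      have e : (fun i : Iio α => D b i.1) = fun i : Iio α => D b' i.1 :=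
        funext fun i => ih i.1 i.2 fun γ hγ => h γ (hγ.trans (le_of_lt i.2))
      rw [hD b α, hD b' α, e, h α le_rfl]
  have hall : ∀ b α γ, AL (D b γ).1 ((D b α).1 ∪ (D b α).2) := by
    intro b α γ
    rcases lt_trichotomy γ α with h | h | h
    · exact (hmono b γ α h).1.trans (AL.of_subset subset_union_left)
    · rw [h]; exact AL.of_subset subset_union_left
    · exact (hmono b α γ h).2.2
  refine ⟨fun b α => (D b α).1, fun b β γ h => ⟨(hmono b β γ h).1, (hmono b β γ h).2.1⟩, ?_⟩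
  intro b b' hb
  obtain ⟨α, hα, hmin⟩ := (wellFounded_lt (α := Ω)).has_min {α | b α ≠ b' α}
    (Function.ne_iff.1 hb)
  have e : (fun i : Iio α => D b i.1) = fun i : Iio α => D b' i.1 :=
    funext fun i => hagree b b' i.1 fun γ hγ => by
      by_contra h
      exact hmin γ h (hγ.trans_lt i.2)
  refine ⟨α, _, _, hall b α, hall b' α, ?_⟩
  obtain ⟨h1, h2, -⟩ := hok b α
  simp only
  rw [hD b α, hD b' α, ← e]
  have d1 := disjoint_left.1 (h2 _ _ hα)
  refine ⟨?_, ?_, (h1 (b α)).1.mono ?_⟩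
  · rintro x ⟨(h3 | h3), h4⟩
    · exact h3
    · rcases h4 with (h4 | h4) | h4
      · exact Or.inl h4
      · exact absurd (Or.inl h4) (d1 (Or.inr h3))
      · exact absurd (Or.inr h4) (d1 (Or.inr h3))
  · rintro x ⟨h4, (h3 | h3)⟩
    · exact h3
    · rcases h4 with (h4 | h4) | h4
      · exact Or.inl h4
      · exact absurd (Or.inr h3) (d1 (Or.inl h4))
      · exact absurd (Or.inr h3) (d1 (Or.inr h4))
  · intro x hx
    refine ⟨Or.inr hx, ?_⟩
    rintro ((h3 | h3) | h3)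
    · exact disjoint_left.1 (h1 (b α)).2.2.1 h3 (Or.inl hx)
    · exact d1 (Or.inl hx) (Or.inl h3)
    · exact d1 (Or.inl hx) (Or.inr h3)

/-! ### topology -/

def N (y : Set ℕ) : Set NStar := {p | y ∈ p.1}

lemma N_open (y : Set ℕ) : IsOpen (N y) :=
  (ultrafilter_isOpen_basic y).preimage continuous_subtype_val

lemma N_closed (y : Set ℕ) : IsClosed (N y) :=
  (ultrafilter_isClosed_basic y).preimage continuous_subtype_val

instance : CompactSpace NStar := by
  apply isCompact_iff_compactSpace.1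
  apply IsClosed.isCompact
  show IsClosed {p : Ultrafilter ℕ | ∀ n, p ≠ pure n}
  have : {p : Ultrafilter ℕ | ∀ n, p ≠ pure n} = ⋂ n, {p : Ultrafilter ℕ | {n}ᶜ ∈ p} := by
    ext p
    simp only [mem_setOf_eq, mem_iInter, Ultrafilter.compl_mem_iff_notMem]
    refine forall_congr' fun n => not_congr ⟨fun h => by simp [h], fun h => ?_⟩
    exact Ultrafilter.eq_pure_of_finite_mem (finite_singleton n) h |>.elim fun x hx => by
      rw [hx.2, hx.1]
  rw [this]
  exact isClosed_iInter fun n => ultrafilter_isClosed_basic _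

lemma fin_notMem (p : NStar) {s : Set ℕ} (hs : s.Finite) : s ∉ p.1 := fun h => by
  obtain ⟨x, -, hx⟩ := Ultrafilter.eq_pure_of_finite_mem hs h
  exact p.2 x hx

lemma N_mono {a b : Set ℕ} (h : AL a b) : N a ⊆ N b := fun p hp => by
  by_contra hb
  exact fin_notMem p h (inter_mem hp (Ultrafilter.compl_mem_iff_notMem.2 hb))

lemma N_nonempty {a : Set ℕ} (h : a.Infinite) : (N a).Nonempty := by
  haveI : (cofinite ⊓ 𝓟 a).NeBot := h.cofinite_inf_principal_neBot
  obtain ⟨p, hp⟩ := Ultrafilter.exists_le (cofinite ⊓ 𝓟 a)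
  refine ⟨⟨p, fun n hn => ?_⟩, hp (mem_inf_of_right (mem_principal_self a))⟩
  have : {n}ᶜ ∈ p := hp (mem_inf_of_left (finite_singleton n).compl_mem_cofinite)
  simp [hn] at this

lemma compact_open {U : Set NStar} (h1 : IsCompact U) (h2 : IsOpen U) : ∃ y, U = N y := by
  have hb := ultrafilterBasis_is_basis (α := ℕ) |>.isInducing
    (IsInducing.subtypeVal (t := {p : Ultrafilter ℕ | ∀ n, p ≠ pure n}))
  have : ∀ p ∈ U, ∃ y, p ∈ N y ∧ N y ⊆ U := by
    intro p hp
    obtain ⟨_, ⟨_, ⟨y, rfl⟩, rfl⟩, a1, a2⟩ := hb.exists_subset_of_mem_open hp h2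
    exact ⟨y, a1, a2⟩
  choose! y hy1 hy2 using this
  obtain ⟨t, ht1, ht2⟩ := h1.elim_nhds_subcover (fun p => N (y p))
    (fun p hp => (N_open _).mem_nhds (hy1 p hp))
  refine ⟨⋃ p ∈ t, y p, Subset.antisymm (fun q hq => ?_) fun q hq => ?_⟩
  · obtain ⟨p, hp, hq'⟩ := mem_iUnion₂.1 (ht2 hq)
    exact mem_of_superset hq' (subset_biUnion_of_mem (u := y) hp)
  · obtain ⟨p, hp, hq'⟩ := (Ultrafilter.finite_biUnion_mem_iff t.finite_toSet).1 hq
    exact hy2 p (ht1 p hp) hq'

def RU {Ω : Type} (y : Ω → Set ℕ) : Set NStar := interior (closure (⋃ α, N (y α)))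

lemma N_sub {Ω : Type} (y : Ω → Set ℕ) (α : Ω) : N (y α) ⊆ RU y :=
  interior_maximal ((subset_iUnion (fun α => N (y α)) α).trans subset_closure) (N_open _)

lemma RU_sub {Ω : Type} {y : Ω → Set ℕ} {A : Set ℕ} (h : ∀ γ, AL (y γ) A) : RU y ⊆ N A :=
  interior_subset.trans (closure_minimal (iUnion_subset fun γ => N_mono (h γ)) (N_closed A))

lemma family {Ω : Type} (y : (Ω → Bool) → Ω → Set ℕ)
    (h : ∀ b b', b ≠ b' → ∃ α A A', (∀ γ, AL (y b γ) A) ∧ (∀ γ, AL (y b' γ) A') ∧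
        A ∩ A' ⊆ y b α ∧ A ∩ A' ⊆ y b' α ∧ (y b α \ A').Infinite) :
    Function.Injective (fun b => RU (y b)) ∧
      ∀ S : Set (Ω → Bool), (∀ b ∈ S, ¬ IsCompact (RU (y b))) →
        AlmostDisjoint ((fun b => RU (y b)) '' S) := by
  constructor
  · intro b b' e
    by_contra hb
    obtain ⟨α, A, A', -, h2, -, -, h5⟩ := h b b' hb
    obtain ⟨p, hp⟩ := N_nonempty h5
    have h6 : p ∈ RU (y b) := N_sub _ α (mem_of_superset hp diff_subset)
    simp only at e
    rw [e] at h6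
    exact Ultrafilter.compl_mem_iff_notMem.1 (mem_of_superset hp fun x hx => hx.2) (RU_sub h2 h6)
  · intro S hS
    constructor
    · rintro _ ⟨b, hb, rfl⟩
      exact ⟨interior_closure_idem.symm, hS b hb⟩
    · rintro _ ⟨b, -, rfl⟩ _ ⟨b', -, rfl⟩ hne
      obtain ⟨α, A, A', h1, h2, h3, h4, -⟩ := h b b' (fun e => hne (by rw [e]))
      have : RU (y b) ∩ RU (y b') = N (A ∩ A') := by
        apply Subset.antisymm
        · intro p hp
          exact inter_mem (RU_sub h1 hp.1) (RU_sub h2 hp.2)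
        · intro p hp
          exact ⟨N_sub _ α (mem_of_superset hp h3), N_sub _ α (mem_of_superset hp h4)⟩
      simp only
      rw [this]
      exact (N_closed _).isCompact

lemma not_compact (y : ℕ → Set ℕ)
    (h : ∀ β γ, β < γ → AL (y β) (y γ) ∧ (y γ \ y β).Infinite) : ¬ IsCompact (RU y) := by
  intro hc
  obtain ⟨Y, hY⟩ := compact_open hc isOpen_interior
  have h1 : ∀ n, AL (y n) Y := by
    intro n
    by_contra hcon
    obtain ⟨p, hp⟩ := N_nonempty hcon
    have : p ∈ N Y := hY ▸ N_sub y n (mem_of_superset hp diff_subset)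
    exact Ultrafilter.compl_mem_iff_notMem.1 (mem_of_superset hp fun x hx => hx.2) this
  obtain ⟨W, hW, hW'⟩ := pseudo (fun n => Y \ y n)
    (fun n => ((h n (n + 1) (Nat.lt_succ_self n)).2.diff (h1 (n + 1))).mono fun x hx =>
      ⟨by by_contra hh; exact hx.2 ⟨hx.1.1, hh⟩, hx.1.2⟩)
    (fun i j hij => (h i j hij).1.subset fun x hx =>
      ⟨by by_contra hh; exact hx.2 ⟨hx.1.1, hh⟩, hx.1.2⟩)
  obtain ⟨p, hp⟩ := N_nonempty hW
  have : p ∈ closure (⋃ α, N (y α)) := by
    apply interior_subset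
    show p ∈ RU y
    rw [hY]
    exact mem_of_superset (N_mono (hW' 0) hp) diff_subset
  obtain ⟨q, hq1, hq2⟩ := mem_closure_iff.1 this _ (N_open W) hp
  obtain ⟨n, hn⟩ := mem_iUnion.1 hq2
  exact Ultrafilter.compl_mem_iff_notMem.1
    (mem_of_superset (N_mono (hW' n) hq1) fun x hx => hx.2) hn

/-- There is an almost disjoint family of regular open subsets of `ℕ*` of size `2 ^ ℵ₁`. -/
theorem result : ∃ 𝒜 : Set (Set NStar), AlmostDisjoint 𝒜 ∧ #𝒜 = 2 ^ (ℵ₁ : Cardinal.{0}) := by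
  have hle : (𝔠 : Cardinal.{0}) ≤ 2 ^ ℵ₁ := by
    rw [← two_power_aleph0]
    exact power_le_power_left two_ne_zero aleph0_lt_aleph_one.le
  rcases hle.lt_or_eq with hlt | heq
  · let Ω := (ℵ₁ : Cardinal.{0}).ord.ToType
    obtain ⟨y, -, hy⟩ := tree Ω fun α =>
      (countable_iff_lt_aleph_one _).2 (mk_Iio_toType_ord_lt α)
    obtain ⟨h1, h2⟩ := family y hy
    refine ⟨_, h2 {b | ¬ IsCompact (RU (y b))} fun b hb => hb, ?_⟩
    rw [mk_image_eq h1]
    have hΩ : #(Ω → Bool) = 2 ^ (ℵ₁ : Cardinal.{0}) := by simp [Ω]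
    have hsmall : #{b | IsCompact (RU (y b))} ≤ 𝔠 := by
      have : ∀ b : {b | IsCompact (RU (y b))}, ∃ Y, RU (y b) = N Y :=
        fun b => compact_open b.2 isOpen_interior
      choose Y hY using this
      have hi : Function.Injective Y := fun a b e =>
        Subtype.ext (h1 (show RU (y a) = RU (y b) by rw [hY, hY, e]))
      simpa using mk_le_of_injective hi
    rw [← hΩ] at hlt ⊢
    haveI : Infinite (Ω → Bool) := infinite_iff.2 (aleph0_le_continuum.trans hlt.le)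
    exact mk_compl_of_infinite {b | IsCompact (RU (y b))} (hsmall.trans_lt hlt)
  · obtain ⟨y, hy1, hy⟩ := tree ℕ fun α => to_countable _
    obtain ⟨h1, h2⟩ := family y hy
    refine ⟨_, h2 univ fun b _ => not_compact _ (hy1 b), ?_⟩
    rw [mk_image_eq h1, ← heq]
    simp

end Pool.Agent.Results.MP_bcfe2b_lc.Q1
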